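/-
Work file of MP_db9399_ow: all the blocks put together: `Stmt_OWN` (helper6).
-/
import Pool.Agent.Work.MP_db9399_ow.Interface
import Pool.Agent.Work.MP_db9399_all_helper6.LLLI
import Pool.Agent.Work.MP_db9399_ow_helper6.ITER
import Pool.Agent.Work.MP_db9399_ow_helper12.SUBL
import Pool.Agent.Work.MP_db9399_ow_helper12.VAR
import Pool.Agent.Work.MP_db9399_ow_helper14.TWO
import Pool.Agent.Work.MP_db9399_ow_helper20.LOCP
import Pool.Agent.Work.MP_db9399_ow_helper20.DEV
import Pool.Agent.Work.MP_db9399_ow_helper21.LSTL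
import Pool.Agent.Work.MP_db9399_ow_helper21.SYM
import Pool.Agent.Work.MP_db9399_ow_helper23.COVB
import Pool.Agent.Work.MP_db9399_ow_helper44.OFFX
import Pool.Agent.Work.MP_db9399_ow_helper44.PNB
import Pool.Agent.Work.MP_db9399_ow_helper59.STPC
import Pool.Agent.Work.MP_db9399_ow_helper59.STPI
import Pool.Agent.Work.MP_db9399_ow_helper59.STPO
import Pool.Agent.Work.MP_db9399_ow_helper72.BATCH
import Pool.Agent.Work.MP_db9399_ow_helper79.LOC2
import Pool.Agent.Work.MP_db9399_ow_helper79.MLT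
import Pool.Agent.Work.MP_db9399_ow_helper79.SGN
import Pool.Agent.Work.MP_db9399_ow_helper79.OWN

namespace Pool.Agent.Work.MP_db9399_ow.helper6

open Pool.Agent.Work.MP_db9399_ow

universe u

/-- `Stmt_OWN` of the own-colour interface, unconditional. -/
theorem own_hold : Stmt_OWN.{u} := by
  have hL : Pool.Agent.Work.MP_db9399_all.Stmt_LLLI.{u} :=
    Pool.Agent.Work.MP_db9399_all.stmt_LLLI
  have hSYM : Stmt_SYM.{u} := helper21.stmt_SYM hL
  have hLSTL : Stmt_LSTL.{u} := helper21.stmt_LSTL hL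
  have hOFFX : Stmt_OFFX.{u} := helper44.stmt_OFFX
  have hPNB : Stmt_PNB := helper44.stmt_PNB
  have hVAR : Stmt_VAR.{u} :=
    helper12.stmt_VAR helper20.stmt_LOCP helper79.stmt_LOC2 helper23.stmt_COVB hPNB
  have hSGN : Stmt_SGN.{u} := helper79.stmt_SGN hOFFX helper20.stmt_LOCP hVAR
  have hMLT : Stmt_MLT.{u} := helper79.stmt_MLT hOFFX
  have hBATCH : Stmt_BATCH.{u} :=
    helper72.stmt_BATCH hSYM hOFFX (helper20.stmt_DEV hOFFX helper20.stmt_LOCP) hSGN hMLT helper14.stmt_TWO hPNB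
  have hITER : Stmt_ITER.{u} :=
    stmt_ITER hBATCH helper59.stmt_STPI helper59.stmt_STPO helper59.stmt_STPC hPNB
  exact helper79.stmt_OWN hITER (helper12s.stmt_SUBL hSYM) hLSTL

end Pool.Agent.Work.MP_db9399_ow.helper6
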