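import Pool.Agent.Work.MP_db9399_ow.Interface

/-!
# MP_db9399, OWN, block ITER: tools (helper6)
-/

set_option autoImplicit false

namespace Pool.Agent.Work.MP_db9399_ow.helper6

open Finset Classical
open Pool.Agent.Work.MP_db9399_all (nb mis pr DepOnI)

universe u

section tools
variable {V : Type u} [Fintype V] {P : ℕ} {J R : Type u} [Fintype J] [Fintype R]
  {G : SimpleGraph V} {d : ℕ} {g : J → Fin P → V → ℝ} {e : J → ℝ}
  {Q : R → Finset (Fin P × V)}

theorem Stt.weaken {U : Finset V} {c : V → Fin P} {n : ℕ} {u er rr gn ν er' rr' gn' ν' : ℝ}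
    (h : Stt G d g e Q U c n u er rr gn ν) (h1 : er ≤ er') (h2 : rr ≤ rr') (h3 : gn' ≤ gn)
    (h4 : ν ≤ ν') : Stt G d g e Q U c n u er' rr' gn' ν' where
  low := h.low
  prp := h.prp
  inv τ := (h.inv τ).trans h1
  o1 j := (h.o1 j).trans (by linarith)
  o2 j := (h.o2 j).trans (by linarith)
  upp q := (h.upp q).trans h4
  cnt v := by
    have h5 := h.cnt v
    have h6 : rr * (d : ℝ) ≤ rr' * d := mul_le_mul_of_nonneg_right h2 (Nat.cast_nonneg _)
    linarith

theorem sum_Hc_inl (v : V) (U : Finset V) : ∑ w ∈ U, Hc G d g (Sum.inl v) w =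
    ((nb G v ∩ U).card : ℝ) / (2 * d) := by
  have h1 : ∀ w, Hc G d g (Sum.inl v) w = if G.Adj v w then 1 / (2 * (d : ℝ)) else 0 :=
    fun _ => rfl
  simp only [h1]
  rw [← Finset.sum_filter, Finset.sum_const, nsmul_eq_mul, mul_one_div]
  congr 2
  apply congrArg
  ext w
  unfold nb
  simp only [mem_filter, mem_inter, mem_univ, true_and]
  tauto

theorem deg_bd {U : Finset V} {c : V → Fin P} {n : ℕ} {u er rr gn ν η : ℝ} (hd : 0 < d)
    (h : Stt G d g e Q U c n u er rr gn ν) (hdeg : ∀ v, |((nb G v).card : ℝ) - d| ≤ η * d)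
    (hu : 0 ≤ u) (v : V) : |((nb G v ∩ U).card : ℝ) - u * d| ≤ (2 * er + u * η) * d := by
  have hd' : (0 : ℝ) < d := by exact_mod_cast hd
  have h1 := h.inv (Sum.inl v)
  have h2 : ∑ w, Hc G d g (Sum.inl v) w = ((nb G v).card : ℝ) / (2 * d) := by
    rw [sum_Hc_inl, inter_univ]
  rw [sum_Hc_inl, h2] at h1
  have h3 : |((nb G v ∩ U).card : ℝ) - u * (nb G v).card| ≤ 2 * er * d := by
    have h4 : ((nb G v ∩ U).card : ℝ) / (2 * d) - u * (((nb G v).card : ℝ) / (2 * d)) =
        (((nb G v ∩ U).card : ℝ) - u * (nb G v).card) / (2 * d) := by ring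
    rw [h4, abs_div, abs_of_pos (by positivity : (0 : ℝ) < 2 * d), div_le_iff₀ (by positivity)]
      at h1
    linarith
  have h4 : |u * (nb G v).card - u * d| ≤ u * (η * d) := by
    rw [← mul_sub, abs_mul, abs_of_nonneg hu]
    exact mul_le_mul_of_nonneg_left (hdeg v) hu
  calc |((nb G v ∩ U).card : ℝ) - u * d| ≤
      |((nb G v ∩ U).card : ℝ) - u * (nb G v).card| + |u * (nb G v).card - u * d| :=
        abs_sub_le _ _ _
    _ ≤ 2 * er * d + u * (η * d) := add_le_add h3 h4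
    _ = _ := by ring

/-- supports of the tests of a batch -/
noncomputable def SF (G : SimpleGraph V) (S : J → Finset V) :
    (V ⊕ (J × Fin P × Bool)) ⊕ (J × Bool) → Finset V
  | Sum.inl (Sum.inl v) => nb G v
  | Sum.inl (Sum.inr (j, _, _)) => S j
  | Sum.inr (j, _) => S j

theorem max_le_abs (a : ℝ) (s : Bool) : max (if s then a else -a) 0 ≤ |a| := by
  rcases s with _ | _
  · simp only [Bool.false_eq_true, if_false]
    exact max_le (neg_le_abs a) (abs_nonneg a)
  · simp only [if_true]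
    exact max_le (le_abs_self a) (abs_nonneg a)

theorem max_zero' (a : ℝ) (s : Bool) (h : a = 0) : max (if s then a else -a) 0 = 0 := by
  subst h
  rcases s with _ | _ <;> simp

theorem tst_Fm {S : J → Finset V} {K W K' W' : ℝ} (hd : 0 < d)
    (hdeg : ∀ v, ((nb G v).card : ℝ) ≤ 2 * d) (hS : Sig K W S g (fun j => e j / d))
    (hK : K ≤ K') (hK' : 1 / (2 * (d : ℝ)) ≤ K') (hW : W ≤ W') (hW' : 2 * (d : ℝ) ≤ W')
    (hW2 : 2 * d + (2 * P + 2) * W ≤ W') :
    Tst K' W' (SF G S) (Fm G d g) := by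
  have hd' : (0 : ℝ) < d := by exact_mod_cast hd
  refine ⟨?_, ?_, ?_, ?_, ?_, ?_⟩
  · rintro ((v | ⟨j, b, s⟩) | ⟨j, s⟩) b' w hw
    · have : ¬ G.Adj v w := fun h => hw (mem_filter.2 ⟨mem_univ _, h⟩)
      show (if G.Adj v w then 1 / (2 * (d : ℝ)) else 0) = 0
      rw [if_neg this]
    · exact max_zero' _ _ (hS.sup j b w hw)
    · exact max_zero' _ _ (hS.sup j b' w hw)
  · rintro ((v | ⟨j, b, s⟩) | ⟨j, s⟩) b' w
    · show 0 ≤ (if G.Adj v w then 1 / (2 * (d : ℝ)) else 0)
      split_ifs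
      · positivity
      · exact le_rfl
    · exact le_max_right _ _
    · exact le_max_right _ _
  · rintro ((v | ⟨j, b, s⟩) | ⟨j, s⟩) b' w
    · show (if G.Adj v w then 1 / (2 * (d : ℝ)) else 0) ≤ K'
      split_ifs
      · exact hK'
      · exact le_trans (by positivity) hK'
    · exact (max_le_abs _ _).trans ((hS.le j b w).trans hK)
    · exact (max_le_abs _ _).trans ((hS.le j b' w).trans hK)
  · rintro ((v | ⟨j, b, s⟩) | ⟨j, s⟩) b'
    · show ∑ w, Hc G d g (Sum.inl v) w ≤ 1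
      rw [sum_Hc_inl, inter_univ, div_le_one (by positivity)]
      exact hdeg v
    · exact (Finset.sum_le_sum fun w _ => max_le_abs _ _).trans (hS.sum j b)
    · exact (Finset.sum_le_sum fun w _ => max_le_abs _ _).trans (hS.sum j b')
  · rintro ((v | ⟨j, b, s⟩) | ⟨j, s⟩)
    · exact (hdeg v).trans hW'
    · exact (hS.card j).trans hW
    · exact (hS.card j).trans hW
  · intro v
    have h1 : (univ.filter (fun τ : (V ⊕ (J × Fin P × Bool)) ⊕ (J × Bool) => v ∈ SF G S τ)) ⊆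
        ((nb G v).image (fun w => Sum.inl (Sum.inl w))) ∪
        ((((univ.filter (fun j => v ∈ S j)) ×ˢ (univ : Finset (Fin P × Bool))).image
          (fun y => Sum.inl (Sum.inr (y.1, y.2.1, y.2.2)))) ∪
        (((univ.filter (fun j => v ∈ S j)) ×ˢ (univ : Finset Bool)).image
          (fun y => Sum.inr (y.1, y.2)))) := by
      intro τ hτ
      rw [mem_filter] at hτ
      have hτ := hτ.2
      rcases τ with (w | ⟨j, b, s⟩) | ⟨j, s⟩
      · rw [mem_union]
        left
        refine mem_image.2 ⟨w, ?_, rfl⟩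
        have : G.Adj w v := (mem_filter.1 hτ).2
        exact mem_filter.2 ⟨mem_univ _, this.symm⟩
      · rw [mem_union, mem_union]
        right; left
        exact mem_image.2 ⟨(j, b, s), mem_product.2 ⟨mem_filter.2 ⟨mem_univ _, hτ⟩,
          mem_univ _⟩, rfl⟩
      · rw [mem_union, mem_union]
        right; right
        exact mem_image.2 ⟨(j, s), mem_product.2 ⟨mem_filter.2 ⟨mem_univ _, hτ⟩,
          mem_univ _⟩, rfl⟩
    have h2 := (card_le_card h1).trans ((card_union_le _ _).trans (add_le_add card_image_le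
      ((card_union_le _ _).trans (add_le_add card_image_le card_image_le))))
    rw [card_product, card_product, Finset.card_univ, Finset.card_univ, Fintype.card_prod,
      Fintype.card_fin, Fintype.card_bool] at h2
    have h3 : ((univ.filter (fun τ : (V ⊕ (J × Fin P × Bool)) ⊕ (J × Bool) =>
        v ∈ SF G S τ)).card : ℝ) ≤ (nb G v).card + ((univ.filter (fun j => v ∈ S j)).card *
          (P * 2) + (univ.filter (fun j => v ∈ S j)).card * 2) := by exact_mod_cast h2
    have h4 := hdeg v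
    have h5 := hS.mul v
    have h6 : (0 : ℝ) ≤ 2 * P + 2 := by positivity
    have h7 := mul_le_mul_of_nonneg_left h5 h6
    calc ((univ.filter (fun τ : (V ⊕ (J × Fin P × Bool)) ⊕ (J × Bool) =>
        v ∈ SF G S τ)).card : ℝ) ≤ _ := h3
      _ ≤ W' := by linarith

end tools

/-- probabilities of the local minima -/
theorem prob_bd (hP : Stmt_PNB) (x A D n : ℕ) (hx : 1 ≤ x) (hD : x ^ A < D) (hn : n + 1 ≤ D)
    (hn4 : D ≤ 4 * (n + 1)) : Pn (D * x ^ A) ((x ^ A) ^ 2) n ≤ 1 / ((n : ℝ) + 1) ∧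
    (1 - 6 * (1 / (x : ℝ)) ^ A) / ((n : ℝ) + 1) ≤ Pn (D * x ^ A) ((x ^ A) ^ 2) n := by
  have hxA : 1 ≤ x ^ A := Nat.one_le_pow _ _ hx
  have hM : 0 < D * x ^ A := Nat.mul_pos (by omega) (by omega)
  have hT : (x ^ A) ^ 2 + 1 ≤ D * x ^ A := by
    rw [sq]
    nlinarith
  obtain ⟨h1, h2, _⟩ := hP _ _ n hM hT
  refine ⟨h1, le_trans ?_ h2⟩
  apply div_le_div_of_nonneg_right _ (by positivity)
  have hX : (0 : ℝ) < (x : ℝ) ^ A := by
    have : (0 : ℝ) < x := by exact_mod_cast (by omega : 0 < x)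
    positivity
  have hDr : (0 : ℝ) < D := by exact_mod_cast (by omega : 0 < D)
  have h3 : ((n : ℝ) + 1) / ((D * x ^ A : ℕ) : ℝ) ≤ 1 / (x : ℝ) ^ A := by
    push_cast
    rw [div_le_div_iff₀ (by positivity) hX]
    have : ((n : ℝ) + 1) ≤ D := by exact_mod_cast hn
    nlinarith
  have h4 : Real.exp (-((((x ^ A) ^ 2 : ℕ) : ℝ) * ((n : ℝ) + 1) / ((D * x ^ A : ℕ) : ℝ))) ≤
      4 / (x : ℝ) ^ A := by
    have h5 : (((x ^ A) ^ 2 : ℕ) : ℝ) * ((n : ℝ) + 1) / ((D * x ^ A : ℕ) : ℝ) =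
        (x : ℝ) ^ A * (((n : ℝ) + 1) / D) := by
      push_cast
      field_simp
    have h6 : (1 : ℝ) / 4 ≤ ((n : ℝ) + 1) / D := by
      rw [div_le_div_iff₀ (by norm_num) hDr]
      have : (D : ℝ) ≤ 4 * (n + 1) := by exact_mod_cast hn4
      linarith
    rw [h5]
    set t : ℝ := (x : ℝ) ^ A * (((n : ℝ) + 1) / D) with ht
    have ht1 : (x : ℝ) ^ A / 4 ≤ t := by
      rw [ht]
      nlinarith
    have ht0 : 0 < t := lt_of_lt_of_le (by positivity) ht1
    have h7 : Real.exp (-t) ≤ 1 / t := by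
      rw [Real.exp_neg, ← one_div]
      apply one_div_le_one_div_of_le ht0
      have := Real.add_one_le_exp t
      linarith
    refine h7.trans ?_
    rw [div_le_div_iff₀ ht0 hX]
    linarith
  have h5 : (1 / (x : ℝ)) ^ A = 1 / (x : ℝ) ^ A := by rw [one_div, inv_pow, one_div]
  rw [h5]
  have h6 : (4 : ℝ) / (x : ℝ) ^ A = 4 * (1 / (x : ℝ) ^ A) := by ring
  rw [h6] at h4
  have h7 : 0 ≤ 1 / (x : ℝ) ^ A := by positivity
  linarith

end Pool.Agent.Work.MP_db9399_ow.helper6
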