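import Pool.Agent.Work.MP_db9399_ow_helper6.ITERA

/-!
# MP_db9399, OWN, block ITER: numbers (helper6)
-/

set_option autoImplicit false

namespace Pool.Agent.Work.MP_db9399_ow.helper6

/-- exponents -/
def G0 (B E : ℕ) : ℕ := 12 * B + E + 4
def eA (B E : ℕ) : ℕ := G0 B E + 2
def eM (B E K : ℕ) : ℕ := 2 * eA B E + 2 * B + G0 B E + K + 5
def eF (B E K : ℕ) : ℕ := eM B E K + G0 B E + 2

/-- errors as functions of the density; `y = 1 / x` -/
noncomputable def er (B E : ℕ) (y u : ℝ) : ℝ := y ^ G0 B E / u ^ 10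

section num
variable {B E : ℕ} {y u z : ℝ}

theorem er_nonneg (hy : 0 ≤ y) (hu : 0 ≤ u) : 0 ≤ er B E y u := by
  unfold er
  positivity

theorem er_le (hy : 0 < y) (hu : y ^ B ≤ u) : er B E y u ≤ y ^ (2 * B + E + 4) := by
  unfold er
  have h0 : 0 < y ^ B := by positivity
  have hu0 : 0 < u := lt_of_lt_of_le h0 hu
  rw [div_le_iff₀ (by positivity)]
  have h1 : (y ^ B) ^ 10 ≤ u ^ 10 := pow_le_pow_left₀ h0.le hu 10
  calc y ^ G0 B E = y ^ (2 * B + E + 4) * (y ^ B) ^ 10 := by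
        rw [← pow_mul, ← pow_add]
        congr 1
        unfold G0
        ring
    _ ≤ y ^ (2 * B + E + 4) * u ^ 10 := by gcongr

theorem er_div_le (hy : 0 < y) (hu : y ^ B ≤ u) : er B E y u / u ≤ y ^ (B + E + 4) := by
  have h0 : 0 < y ^ B := by positivity
  have hu0 : 0 < u := lt_of_lt_of_le h0 hu
  rw [div_le_iff₀ hu0]
  calc er B E y u ≤ y ^ (2 * B + E + 4) := er_le hy hu
    _ = y ^ (B + E + 4) * y ^ B := by
        rw [← pow_add]
        congr 1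
        ring
    _ ≤ y ^ (B + E + 4) * u := by gcongr

theorem ten (t : ℝ) (h0 : 0 ≤ t) (h1 : t ≤ 1) : (1 - t) ^ 10 * (1 + 10 * t) ≤ 1 := by
  have h2 : 1 + 10 * t ≤ (1 + t) ^ 10 := by
    have := one_add_mul_le_pow (a := t) (by linarith) 10
    norm_num at this
    linarith
  calc (1 - t) ^ 10 * (1 + 10 * t) ≤ (1 - t) ^ 10 * (1 + t) ^ 10 := by
        apply mul_le_mul_of_nonneg_left h2
        have : 0 ≤ 1 - t := by linarith
        positivity
    _ = (1 - t ^ 2) ^ 10 := by ring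
    _ ≤ 1 := by
        apply pow_le_one₀
        · nlinarith
        · nlinarith

theorem er_step (hy : 0 < y) (hz0 : 0 ≤ z) (hu1 : u ≤ 1) (huz : 0 < u - z) :
    er B E y u * (1 + 9 * z / u) + y ^ G0 B E * z ≤ er B E y (u - z) := by
  have hu0 : 0 < u := by linarith
  have h1 : er B E y u * (1 + 10 * (z / u)) ≤ er B E y (u - z) := by
    unfold er
    rw [div_mul_eq_mul_div, div_le_div_iff₀ (by positivity) (by positivity)]
    have h2 : (u - z) ^ 10 = u ^ 10 * (1 - z / u) ^ 10 := by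
      rw [← mul_pow, mul_sub, mul_one, mul_div_cancel₀ _ hu0.ne']
    have h3 := ten (z / u) (by positivity) (by rw [div_le_one hu0]; linarith)
    rw [h2]
    calc y ^ G0 B E * (1 + 10 * (z / u)) * (u ^ 10 * (1 - z / u) ^ 10) =
        y ^ G0 B E * u ^ 10 * ((1 - z / u) ^ 10 * (1 + 10 * (z / u))) := by ring
      _ ≤ y ^ G0 B E * u ^ 10 * 1 := by gcongr
      _ = y ^ G0 B E * u ^ 10 := by ring
  have h4 : y ^ G0 B E * z ≤ er B E y u * (z / u) := by
    unfold er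
    rw [div_mul_div_comm, le_div_iff₀ (by positivity)]
    have h5 : u ^ 10 * u ≤ 1 := by
      have : u ^ 10 ≤ 1 := pow_le_one₀ hu0.le hu1
      nlinarith
    have h6 : 0 ≤ y ^ G0 B E * z := by positivity
    nlinarith
  have h5 : er B E y u * (1 + 9 * z / u) = er B E y u * (1 + 10 * (z / u)) -
      er B E y u * (z / u) := by ring
  rw [h5]
  linarith

theorem small_sum (hy : 0 < y) (hy1 : y ≤ 1 / 1000) (hz0 : 0 ≤ z) {η γ ε ε1 : ℝ}
    (hη : η ≤ y ^ (G0 B E + 2)) (hγ : γ = 6 * y ^ eA B E)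
    (hε : ε ≤ z * (2 * y ^ (G0 B E + 2))) (hε1 : ε1 ≤ z * (8 * y ^ (G0 B E + 3))) :
    4 * z * (η + γ) + ε + ε1 ≤ y ^ G0 B E * z := by
  have h0 : 0 < y ^ G0 B E := by positivity
  have h1 : y ^ (G0 B E + 2) = y ^ G0 B E * y ^ 2 := pow_add _ _ _
  have h2 : y ^ (G0 B E + 3) = y ^ G0 B E * y ^ 3 := pow_add _ _ _
  have h3 : y ^ eA B E = y ^ G0 B E * y ^ 2 := pow_add _ _ _
  rw [h1] at hη hε
  rw [h2] at hε1
  rw [h3] at hγ
  have h4 : y ^ 2 ≤ 1 / 1000 * (1 / 1000) := by nlinarith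
  have h5 : y ^ 3 ≤ y ^ 2 := by
    have : y ^ 3 = y ^ 2 * y := by ring
    rw [this]
    nlinarith [sq_nonneg y]
  have h6 : η + γ ≤ 7 * (y ^ G0 B E * y ^ 2) := by linarith
  have h7 : 4 * z * (η + γ) ≤ 4 * z * (7 * (y ^ G0 B E * y ^ 2)) :=
    mul_le_mul_of_nonneg_left h6 (by positivity)
  have h8 : z * (8 * (y ^ G0 B E * y ^ 3)) ≤ z * (8 * (y ^ G0 B E * y ^ 2)) := by gcongr
  calc 4 * z * (η + γ) + ε + ε1 ≤ 4 * z * (7 * (y ^ G0 B E * y ^ 2)) +
        z * (2 * (y ^ G0 B E * y ^ 2)) + z * (8 * (y ^ G0 B E * y ^ 2)) := by linarith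
    _ = 38 * (z * y ^ G0 B E) * y ^ 2 := by ring
    _ ≤ 38 * (z * y ^ G0 B E) * (1 / 1000 * (1 / 1000)) := by gcongr
    _ ≤ y ^ G0 B E * z := by
        have : 0 ≤ z * y ^ G0 B E := by positivity
        nlinarith

theorem rr_sum (hy : 0 < y) (hy1 : y ≤ 1 / 1000) (hz0 : 0 ≤ z) (hu : y ^ B ≤ u) {η γ ε ε1 : ℝ}
    (hη : η ≤ y ^ (G0 B E + 2)) (hγ : γ = 6 * y ^ eA B E)
    (hε : ε ≤ z * (2 * y ^ (G0 B E + 2))) (hε1 : ε1 ≤ z * (8 * y ^ (G0 B E + 3))) :
    z * (14 * er B E y u / u + 6 * η + 6 * γ) + 2 * ε + 2 * ε1 ≤ z * y ^ (B + E + 3) := by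
  have h0 : 0 < y ^ (B + E + 3) := by positivity
  have e1 : y ^ (B + E + 4) = y ^ (B + E + 3) * y := pow_succ _ _
  have hG : G0 B E + 2 = (B + E + 3) + (11 * B + 3) := by unfold G0; ring
  have h1 : y ^ (G0 B E + 2) ≤ y ^ (B + E + 3) * y := by
    rw [hG, pow_add]
    apply mul_le_mul_of_nonneg_left _ h0.le
    calc y ^ (11 * B + 3) ≤ y ^ 1 := pow_le_pow_of_le_one hy.le (by linarith) (by omega)
      _ = y := pow_one y
  have h2 : y ^ (G0 B E + 3) ≤ y ^ (B + E + 3) * y := by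
    refine le_trans ?_ h1
    exact pow_le_pow_of_le_one hy.le (by linarith) (by omega)
  have h3 : er B E y u / u ≤ y ^ (B + E + 3) * y := e1 ▸ er_div_le hy hu
  have hγ' : γ ≤ 6 * (y ^ (B + E + 3) * y) := by
    rw [hγ]
    exact mul_le_mul_of_nonneg_left h1 (by norm_num)
  have h4 : 14 * er B E y u / u + 6 * η + 6 * γ ≤ 56 * (y ^ (B + E + 3) * y) := by
    rw [mul_div_assoc]
    linarith
  have h5 := mul_le_mul_of_nonneg_left h4 hz0
  have h6 : z * (2 * y ^ (G0 B E + 2)) ≤ z * (2 * (y ^ (B + E + 3) * y)) := by gcongr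
  have h7 : z * (8 * y ^ (G0 B E + 3)) ≤ z * (8 * (y ^ (B + E + 3) * y)) := by gcongr
  calc z * (14 * er B E y u / u + 6 * η + 6 * γ) + 2 * ε + 2 * ε1 ≤
      z * (56 * (y ^ (B + E + 3) * y)) + 2 * (z * (2 * (y ^ (B + E + 3) * y))) +
        2 * (z * (8 * (y ^ (B + E + 3) * y))) := by linarith
    _ = 76 * y * (z * y ^ (B + E + 3)) := by ring
    _ ≤ 76 * (1 / 1000) * (z * y ^ (B + E + 3)) := by gcongr
    _ ≤ z * y ^ (B + E + 3) := by
        have : 0 ≤ z * y ^ (B + E + 3) := by positivity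
        nlinarith

end num

end Pool.Agent.Work.MP_db9399_ow.helper6
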