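import Pool.Agent.Work.MP_db9399_ow_helper6.ITERB

/-!
# MP_db9399, OWN, block ITER: one step (helper6)
-/

set_option autoImplicit false

namespace Pool.Agent.Work.MP_db9399_ow.helper6

open Finset Classical
open Pool.Agent.Work.MP_db9399_all (nb mis pr DepOnI)

universe u

theorem card_Bt (P n β : ℕ) (h : n + β ≤ P) :
    (univ.filter (fun b : Fin P => n ≤ (b : ℕ) ∧ (b : ℕ) < n + β)).card = β := by
  have h1 : (univ.filter (fun b : Fin P => n ≤ (b : ℕ) ∧ (b : ℕ) < n + β)).map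
      ⟨Fin.val, Fin.val_injective⟩ = Finset.Ico n (n + β) := by
    ext i
    simp only [mem_map, mem_filter, mem_univ, true_and, Function.Embedding.coeFn_mk,
      Finset.mem_Ico]
    constructor
    · rintro ⟨b, hb, rfl⟩
      exact hb
    · intro hi
      exact ⟨⟨i, by omega⟩, hi, rfl⟩
  rw [← card_map ⟨Fin.val, Fin.val_injective⟩, h1, Nat.card_Ico]
  omega

section
variable {V : Type u} [Fintype V] {P : ℕ} {J R : Type u} [Fintype J] [Fintype R]

theorem Sig.weaken {K W K' W' : ℝ} {S : J → Finset V} {g : J → Fin P → V → ℝ} {e : J → ℝ}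
    (h : Sig K W S g e) (hK : K ≤ K') (hW : W ≤ W') : Sig K' W' S g e :=
  ⟨h.sup, fun j b v => (h.le j b v).trans hK, h.sum, h.sq, h.e0, fun j => (h.card j).trans hW,
    fun v => (h.mul v).trans hW⟩

theorem Upt.weaken {s W s' W' : ℝ} {Q : R → Finset (Fin P × V)}
    (h : Upt s W Q) (hs : s ≤ s') (hW : W ≤ W') : Upt s' W' Q :=
  ⟨fun q => (h.card q).trans hs, fun v => (h.mul v).trans hW⟩

/-- non-adjacent pairs in a large part -/
theorem mis_sub (G : SimpleGraph V) (N U : Finset V) : ((mis G N).card : ℝ) ≤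
    (mis G (N ∩ U)).card + 2 * (((N \ U).card : ℝ) * N.card) := by
  have h1 : mis G N ⊆ mis G (N ∩ U) ∪ (((N \ U) ×ˢ N) ∪ (N ×ˢ (N \ U))) := by
    rintro ⟨a, b⟩ hab
    unfold mis at hab
    rw [mem_filter, mem_product] at hab
    obtain ⟨⟨ha, hb⟩, h2⟩ := hab
    rw [mem_union, mem_union, mem_product, mem_product]
    by_cases haU : a ∈ U
    · by_cases hbU : b ∈ U
      · left
        unfold mis
        rw [mem_filter, mem_product]
        exact ⟨⟨mem_inter.2 ⟨ha, haU⟩, mem_inter.2 ⟨hb, hbU⟩⟩, h2⟩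
      · right; right
        exact ⟨ha, mem_sdiff.2 ⟨hb, hbU⟩⟩
    · right; left
      exact ⟨mem_sdiff.2 ⟨ha, haU⟩, hb⟩
  have h2 := (card_le_card h1).trans ((card_union_le _ _).trans (add_le_add le_rfl
    (card_union_le _ _)))
  rw [card_product, card_product] at h2
  have h3 : ((mis G N).card : ℝ) ≤ (mis G (N ∩ U)).card + (((N \ U).card : ℝ) * N.card +
      N.card * (N \ U).card) := by exact_mod_cast h2
  linarith

end

/-- the state as a function of the density -/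
def St {V : Type u} [Fintype V] {P : ℕ} {J R : Type u} [Fintype J] [Fintype R]
    (G : SimpleGraph V) (d : ℕ) (g : J → Fin P → V → ℝ) (e : J → ℝ)
    (Q : R → Finset (Fin P × V)) (B E K1 : ℕ) (y M : ℝ) (U : Finset V) (c : V → Fin P) (n : ℕ)
    (u : ℝ) : Prop :=
  Stt G d g e Q U c n u (er B E y u) ((1 - u) * y ^ (B + E + 3))
    (y ^ K1 / 8 / 256 * (d * min (1 - u) (y ^ K1 / 8))) ((1 - u) * M)

theorem step (hBATCH : Stmt_BATCH.{u}) (hSTPI : Stmt_STPI.{u}) (hSTPO : Stmt_STPO.{u})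
    (hSTPC : Stmt_STPC.{u}) (hPNB : Stmt_PNB) (B C K K1 E : ℕ) (hB : 2 * K1 + 4 ≤ B) :
    ∃ N x0 : ℕ, 1000 ≤ x0 ∧ ∀ {V : Type u} [Fintype V] [Nonempty V] (G : SimpleGraph V)
      (d x P : ℕ) (J R : Type u)
      [Fintype J] [Fintype R] (S : J → Finset V) (g : J → Fin P → V → ℝ) (e : J → ℝ)
      (Q : R → Finset (Fin P × V)), x0 ≤ x → Real.log d ≤ x → x ^ N ≤ d → P ≤ 2 * d →
      (∀ v, |((nb G v).card : ℝ) - d| ≤ d / (x : ℝ) ^ (G0 B E + 2)) →
      (∀ v, (d : ℝ) ^ 2 / (x : ℝ) ^ K1 ≤ ((mis G (nb G v)).card : ℝ)) →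
      Sig ((x : ℝ) ^ K / d) (Real.exp ((x : ℝ) ^ C)) S g (fun j => e j / d) →
      Upt (d * (x : ℝ) ^ K) (Real.exp ((x : ℝ) ^ C)) Q →
      ∀ (β n : ℕ), β * x ^ eM B E (K + K1 + 1) ≤ d → d ≤ 2 * (β * x ^ eM B E (K + K1 + 1)) →
      n + β ≤ P → ∀ (U : Finset V) (c : V → Fin P) (u : ℝ), u ≤ 1 →
      (1 / (x : ℝ)) ^ B ≤ u - β / d →
      St G d g e Q B E K1 (1 / (x : ℝ)) (2 * (x : ℝ) ^ eM B E (K + K1 + 1) *
        (x : ℝ) ^ (eA B E + (B + 1) + (C + 2) + (K + K1 + 1) + 5)) U c n u →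
      ∃ (U' : Finset V) (c' : V → Fin P),
        St G d g e Q B E K1 (1 / (x : ℝ)) (2 * (x : ℝ) ^ eM B E (K + K1 + 1) *
          (x : ℝ) ^ (eA B E + (B + 1) + (C + 2) + (K + K1 + 1) + 5)) U' c' (n + β)
          (u - β / d) := by
  set K2 := K + K1 + 1 with hK2
  set A := eA B E with hA
  set m := eM B E K2 with hm
  obtain ⟨N1, x1, H1⟩ := hBATCH A (B + 1) (C + 2) K2 (eF B E K2) m (by
    rw [hm]
    unfold eM
    rw [← hA]
    omega)
  refine ⟨N1 + A + B + m + 10, max x1 1000, le_max_right _ _, ?_⟩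
  intro V _ _ G d x P J R _ _ S g e Q hx hlog hxN hP hdeg hmis hS hQ β n hβ1 hβ2 hnP U c u hu1
    huz hSt
  have hx1 : x1 ≤ x := (le_max_left _ _).trans hx
  have hx1000 : 1000 ≤ x := (le_max_right _ _).trans hx
  have hxpos : 0 < x := by omega
  have hX : (1000 : ℝ) ≤ x := by exact_mod_cast hx1000
  have hX0 : (0 : ℝ) < x := by linarith
  have hX1 : (1 : ℝ) ≤ x := by linarith
  -- powers of `x` against `d`
  have hpow : ∀ k, k ≤ N1 + A + B + m + 10 → (x : ℝ) ^ k ≤ d := by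
    intro k hk
    have h1 : x ^ k ≤ x ^ (N1 + A + B + m + 10) := Nat.pow_le_pow_right hxpos hk
    exact_mod_cast h1.trans hxN
  have hdN1 : x ^ N1 ≤ d := (Nat.pow_le_pow_right hxpos (by omega)).trans hxN
  have hd1000 : (1000 : ℝ) ≤ d := by
    have := hpow 1 (by omega)
    rw [pow_one] at this
    linarith
  have hd0 : (0 : ℝ) < d := by linarith
  have hdpos : 0 < d := by exact_mod_cast hd0
  set y : ℝ := 1 / (x : ℝ) with hy
  have hy0 : 0 < y := by positivity
  have hy1 : y ≤ 1 / 1000 := by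
    rw [hy]
    exact one_div_le_one_div_of_le (by norm_num) hX
  have hyle1 : y ≤ 1 := by linarith
  have hyX : ∀ k : ℕ, y ^ k = 1 / (x : ℝ) ^ k := fun k => by rw [hy, one_div, inv_pow, one_div]
  have hypow : ∀ k : ℕ, 1 ≤ k → y ^ k ≤ 1 / 1000 := by
    intro k hk
    exact (pow_le_pow_of_le_one hy0.le hyle1 hk).trans (by rw [pow_one]; exact hy1)
  set z : ℝ := (β : ℝ) / d with hz
  have hz0 : 0 ≤ z := by positivity
  have hzβ : z * d = β := div_mul_cancel₀ _ hd0.ne'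
  have hXm : (0 : ℝ) < (x : ℝ) ^ m := by positivity
  have hzm : z ≤ y ^ m := by
    rw [hyX, hz, div_le_div_iff₀ hd0 hXm, one_mul]
    exact_mod_cast hβ1
  have hzm2 : y ^ m ≤ 2 * z := by
    rw [hyX, hz, div_le_iff₀ hXm]
    have : (d : ℝ) ≤ 2 * (β * x ^ m) := by exact_mod_cast hβ2
    calc (1 : ℝ) = d / d := (div_self hd0.ne').symm
      _ ≤ (2 * (β * x ^ m)) / d := div_le_div_of_nonneg_right this hd0.le
      _ = 2 * (β / d) * x ^ m := by ring
  have hyB : 0 < y ^ B := by positivity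
  have huz' : y ^ B ≤ u - z := huz
  have huB : y ^ B ≤ u := by linarith
  have hu0 : 0 < u := by linarith
  -- errors
  set η : ℝ := y ^ (G0 B E + 2) with hη
  set γ : ℝ := 6 * y ^ A with hγ
  have hdeg' : ∀ v, |((nb G v).card : ℝ) - d| ≤ η * d := by
    intro v
    refine (hdeg v).trans (le_of_eq ?_)
    rw [hη, hyX]
    ring
  have hη0 : 0 ≤ η := by positivity
  have hη1 : η ≤ 1 / 1000 := hypow _ (by omega)
  have hAeq : A = G0 B E + 2 := rfl
  have hγ0 : 0 ≤ γ := by positivity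
  have hγ1 : γ ≤ 1 / 10 := by
    have := hypow A (by rw [hAeq]; omega)
    rw [hγ]
    linarith
  have hSt' : Stt G d g e Q U c n u (er B E y u) ((1 - u) * y ^ (B + E + 3))
    (y ^ K1 / 8 / 256 * (d * min (1 - u) (y ^ K1 / 8))) ((1 - u) * (2 * (x : ℝ) ^ m *
        (x : ℝ) ^ (A + (B + 1) + (C + 2) + K2 + 5))) := hSt
  have her0 : 0 ≤ er B E y u := er_nonneg hy0.le hu0.le
  have heru : er B E y u / u ≤ y ^ (B + E + 4) := er_div_le hy0 huB
  have heru2 : er B E y u / u ≤ 1 / 1000 := heru.trans (hypow _ (by omega))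
  have hth : 2 * er B E y u / u + η ≤ 3 / 1000 := by
    rw [mul_div_assoc]
    linarith
  have heu : er B E y u ≤ u / 1000 := by
    rw [div_le_iff₀ hu0] at heru2
    linarith
  -- degrees
  have hdbd : ∀ v, |((nb G v ∩ U).card : ℝ) - u * d| ≤ 3 / 1000 * (u * d) := by
    intro v
    refine (deg_bd hdpos hSt' hdeg' hu0.le v).trans ?_
    have h1 : 2 * er B E y u + u * η = (2 * er B E y u / u + η) * u := by
      field_simp
    rw [h1]
    have h2 : (2 * er B E y u / u + η) * u * d ≤ 3 / 1000 * u * d := by gcongr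
    linarith
  have hud : (1000 : ℝ) ≤ u * d := by
    have h1 := hpow (B + 1) (by omega)
    have h2 : y ^ B * d ≤ u * d := by gcongr
    rw [hyX] at h2
    have h3 : (x : ℝ) ≤ 1 / (x : ℝ) ^ B * d := by
      rw [one_div, inv_mul_eq_div, le_div_iff₀ (by positivity)]
      rw [pow_succ] at h1
      linarith
    linarith
  obtain ⟨D, hD⟩ : ∃ D, D = univ.sup (fun v => (nb G v ∩ U).card) + 1 := ⟨_, rfl⟩
  have hDle : ∀ v, (nb G v ∩ U).card + 1 ≤ D := by
    intro v
    rw [hD]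
    exact Nat.add_le_add_right (Finset.le_sup (f := fun v => (nb G v ∩ U).card) (mem_univ v)) 1
  have hDup : (D : ℝ) ≤ 1.003 * (u * d) + 1 := by
    obtain ⟨v, _, hv⟩ := Finset.exists_mem_eq_sup univ univ_nonempty
      (fun v => (nb G v ∩ U).card)
    rw [hD, hv]
    push_cast
    have := (abs_le.1 (hdbd v)).2
    linarith
  have hDlo : 0.997 * (u * d) ≤ D := by
    obtain ⟨v⟩ := (inferInstance : Nonempty V)
    have h1 := (abs_le.1 (hdbd v)).1
    have h2 : (((nb G v ∩ U).card : ℝ)) + 1 ≤ D := by exact_mod_cast hDle v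
    linarith
  have hud1 : u * d ≤ d := by nlinarith
  have hD2d : D ≤ 2 * d := by
    have : (D : ℝ) ≤ 2 * d := by linarith
    exact_mod_cast this
  have hDB : d ≤ D * x ^ (B + 1) := by
    have h1 : (d : ℝ) ≤ D * (x : ℝ) ^ (B + 1) := by
      have h2 : y ^ B * d ≤ u * d := by gcongr
      have h3 : 0.997 * (y ^ B * d) ≤ D := by linarith
      have h4 : y ^ B * (x : ℝ) ^ (B + 1) = x := by
        rw [hyX, pow_succ]
        field_simp
      have h5 : (1000 : ℝ) * d ≤ x * d := by gcongr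
      calc (d : ℝ) ≤ 0.997 * (x * d) := by linarith
        _ = 0.997 * ((y ^ B * (x : ℝ) ^ (B + 1)) * d) := by rw [h4]
        _ = 0.997 * (y ^ B * d) * (x : ℝ) ^ (B + 1) := by ring
        _ ≤ D * (x : ℝ) ^ (B + 1) := by gcongr
    exact_mod_cast h1
  have hxAD : x ^ A < D := by
    have h1 : (x : ℝ) ^ A < D := by
      have h2 : y ^ B * d ≤ u * d := by gcongr
      have h3 := hpow (A + B + 1) (by omega)
      rw [hyX] at h2
      have h4 : (x : ℝ) ^ A * x ≤ 1 / (x : ℝ) ^ B * d := by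
        rw [one_div, inv_mul_eq_div, le_div_iff₀ (by positivity)]
        calc (x : ℝ) ^ A * x * x ^ B = (x : ℝ) ^ (A + B + 1) := by ring
          _ ≤ d := h3
      have h5 : 0 < (x : ℝ) ^ A := by positivity
      nlinarith
    exact_mod_cast h1
  have hD4 : ∀ v, D ≤ 4 * (nb G v ∩ U).card := by
    intro v
    have h1 := (abs_le.1 (hdbd v)).1
    have : (D : ℝ) ≤ 4 * (nb G v ∩ U).card := by linarith
    exact_mod_cast this
  -- the batch
  set Bt : Finset (Fin P) := univ.filter (fun b : Fin P => n ≤ (b : ℕ) ∧ (b : ℕ) < n + β)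
    with hBt
  have hBtc : Bt.card = β := card_Bt P n β hnP
  set a : ℝ := y ^ K1 / 8 with ha
  have ha0 : 0 < a := by positivity
  have hyK1 : y ^ K1 ≤ 1 := pow_le_one₀ hy0.le hyle1
  have ha1 : a ≤ 1 := by
    rw [ha]
    linarith
  have haK : 1 / (x : ℝ) ^ K2 ≤ a := by
    rw [← hyX, ha, hK2]
    have h1 : y ^ (K + K1 + 1) ≤ y ^ (K1 + 1) :=
      pow_le_pow_of_le_one hy0.le hyle1 (by omega)
    have h2 : y ^ (K1 + 1) = y ^ K1 * y := pow_succ _ _
    have h3 : 0 < y ^ K1 := by positivity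
    nlinarith
  have hdeg2 : ∀ v, (nb G v).card ≤ 2 * d := by
    intro v
    have h1 := (abs_le.1 (hdeg' v)).2
    have h2 : ((nb G v).card : ℝ) ≤ 2 * d := by nlinarith
    exact_mod_cast h2
  have hdeg2' : ∀ v, ((nb G v).card : ℝ) ≤ 2 * d := fun v => by exact_mod_cast hdeg2 v
  -- windows
  have hdexp : (d : ℝ) ≤ Real.exp x := by
    rw [← Real.log_le_iff_le_exp hd0]
    exact hlog
  have hXC1 : 1 ≤ (x : ℝ) ^ C := one_le_pow₀ hX1
  have hXC2 : (x : ℝ) ^ C + x + 3 ≤ (x : ℝ) ^ (C + 2) := by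
    have h1 : (x : ℝ) ^ (C + 2) = (x : ℝ) ^ C * x ^ 2 := pow_add _ _ _
    have h2 : (1000 : ℝ) * x ≤ x ^ 2 := by
      rw [sq]
      gcongr
    have h3 : 0 ≤ ((x : ℝ) ^ C - 1) * ((x : ℝ) ^ 2 - 1) := by
      apply mul_nonneg (by linarith)
      linarith
    rw [h1]
    linarith
  have hW1 : Real.exp ((x : ℝ) ^ C) ≤ Real.exp ((x : ℝ) ^ (C + 2)) :=
    Real.exp_le_exp.2 (by linarith)
  have he3 : (8 : ℝ) ≤ Real.exp 3 := by
    have := Real.quadratic_le_exp_of_nonneg (x := 3) (by norm_num)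
    norm_num at this
    linarith
  have hW3 : 8 * Real.exp x * Real.exp ((x : ℝ) ^ C) ≤ Real.exp ((x : ℝ) ^ (C + 2)) := by
    calc 8 * Real.exp x * Real.exp ((x : ℝ) ^ C) ≤
        Real.exp 3 * Real.exp x * Real.exp ((x : ℝ) ^ C) := by gcongr
      _ = Real.exp ((x : ℝ) ^ C + x + 3) := by
        rw [← Real.exp_add, ← Real.exp_add]
        congr 1
        ring
      _ ≤ _ := Real.exp_le_exp.2 hXC2
  have hexp1 : 1 ≤ Real.exp ((x : ℝ) ^ C) := Real.one_le_exp (by positivity)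
  have hexpx : (1 : ℝ) ≤ Real.exp x := Real.one_le_exp hX0.le
  have hPr : (P : ℝ) ≤ 2 * d := by exact_mod_cast hP
  have hW2 : 2 * (d : ℝ) + (2 * P + 2) * Real.exp ((x : ℝ) ^ C) ≤
      Real.exp ((x : ℝ) ^ (C + 2)) := by
    refine le_trans ?_ hW3
    have h1 : (2 * (P : ℝ) + 2) ≤ 5 * Real.exp x := by linarith
    have h2 : 2 * (d : ℝ) ≤ 2 * Real.exp x * Real.exp ((x : ℝ) ^ C) := by nlinarith
    have h3 : (2 * (P : ℝ) + 2) * Real.exp ((x : ℝ) ^ C) ≤
        5 * Real.exp x * Real.exp ((x : ℝ) ^ C) := by gcongr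
    have h4 : 0 ≤ Real.exp x * Real.exp ((x : ℝ) ^ C) := by positivity
    linarith
  have hXK : (x : ℝ) ^ K / d ≤ (x : ℝ) ^ K2 / d := by
    apply div_le_div_of_nonneg_right _ hd0.le
    exact pow_le_pow_right₀ hX1 (by omega)
  have hT := tst_Fm (G := G) (d := d) (g := g) (e := e) (S := S)
    (K := (x : ℝ) ^ K / d) (W := Real.exp ((x : ℝ) ^ C))
    (K' := (x : ℝ) ^ K2 / d) (W' := Real.exp ((x : ℝ) ^ (C + 2))) hdpos hdeg2' hS hXK
    (by
      rw [div_le_div_iff₀ (by positivity) hd0]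
      have : 1 ≤ (x : ℝ) ^ K2 := one_le_pow₀ hX1
      nlinarith) hW1
    (by
      refine le_trans ?_ hW2
      have : 0 ≤ (2 * (P : ℝ) + 2) * Real.exp ((x : ℝ) ^ C) := by positivity
      linarith) hW2
  obtain ⟨A', O, hBch⟩ := H1 G d x P D U Bt a ((V ⊕ (J × Fin P × Bool)) ⊕ (J × Bool)) J R
    (SF G S) (Fm G d g) S g e Q hx1 hlog hdN1 hP hD2d hDB (by rw [hBtc]; exact hβ1)
    (by rw [hBtc]; exact hβ2) haK ha1 hdeg2 hDle (fun v _ => hD4 v) hT
    (Sig.weaken hS hXK hW1)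
    (Upt.weaken hQ (by
      apply mul_le_mul_of_nonneg_left _ hd0.le
      exact pow_le_pow_right₀ hX1 (by omega)) hW1)
  -- the errors of the batch
  set ε : ℝ := 1 / (x : ℝ) ^ eF B E K2 with hε
  set ε1 : ℝ := 2 * (Bt.card * (x : ℝ) ^ A / D) ^ 2 with hε1
  have hε0 : 0 ≤ ε := by positivity
  have hε10 : 0 ≤ ε1 := by positivity
  have hεb : ε ≤ z * (2 * y ^ (G0 B E + 2)) := by
    rw [hε, ← hyX]
    have h1 : eF B E K2 = m + (G0 B E + 2) := by
      rw [hm]
      unfold eF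
      ring
    rw [h1, pow_add]
    have h2 : 0 ≤ y ^ (G0 B E + 2) := by positivity
    nlinarith
  have hε1b : ε1 ≤ z * (8 * y ^ (G0 B E + 3)) := by
    have hDr : (0 : ℝ) < D := by linarith
    have h1 : Bt.card * (x : ℝ) ^ A / D ≤ 2 * z * (x : ℝ) ^ (A + B) := by
      rw [hBtc, div_le_iff₀ hDr, ← hzβ]
      have h2 : y ^ B * d ≤ u * d := by gcongr
      have h3 : 0.997 * (y ^ B * d) ≤ D := by linarith
      have h4 : y ^ B * (x : ℝ) ^ (A + B) = (x : ℝ) ^ A := by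
        rw [hyX, pow_add]
        field_simp
      have h5 : 0 ≤ (x : ℝ) ^ (A + B) := by positivity
      calc z * d * (x : ℝ) ^ A = z * (x : ℝ) ^ (A + B) * (y ^ B * d) := by rw [← h4]; ring
        _ ≤ z * (x : ℝ) ^ (A + B) * (2 * D) := by
            apply mul_le_mul_of_nonneg_left _ (by positivity)
            linarith
        _ = 2 * z * (x : ℝ) ^ (A + B) * D := by ring
    have h0 : 0 ≤ Bt.card * (x : ℝ) ^ A / D := by positivity
    have h2 : (Bt.card * (x : ℝ) ^ A / D) ^ 2 ≤ (2 * z * (x : ℝ) ^ (A + B)) ^ 2 :=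
      pow_le_pow_left₀ h0 h1 2
    have h3 : z * ((x : ℝ) ^ (A + B)) ^ 2 ≤ y ^ (G0 B E + 3) := by
      have h4 : m = (A + B) * 2 + (G0 B E + 3) + (K2 + 2) := by
        rw [hm]
        unfold eM
        rw [← hA]
        ring
      have h5 : y ^ m * ((x : ℝ) ^ (A + B)) ^ 2 = y ^ (G0 B E + 3) * y ^ (K2 + 2) := by
        rw [h4, pow_add, pow_add, ← pow_mul]
        have h6 : y ^ ((A + B) * 2) * (x : ℝ) ^ ((A + B) * 2) = 1 := by
          rw [← mul_pow, hy, one_div, inv_mul_cancel₀ hX0.ne', one_pow]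
        calc y ^ ((A + B) * 2) * y ^ (G0 B E + 3) * y ^ (K2 + 2) * (x : ℝ) ^ ((A + B) * 2) =
            (y ^ ((A + B) * 2) * (x : ℝ) ^ ((A + B) * 2)) * (y ^ (G0 B E + 3) * y ^ (K2 + 2)) := by
              ring
          _ = _ := by rw [h6, one_mul]
      calc z * ((x : ℝ) ^ (A + B)) ^ 2 ≤ y ^ m * ((x : ℝ) ^ (A + B)) ^ 2 := by gcongr
        _ = y ^ (G0 B E + 3) * y ^ (K2 + 2) := h5
        _ ≤ y ^ (G0 B E + 3) * 1 := by
            apply mul_le_mul_of_nonneg_left (pow_le_one₀ hy0.le hyle1) (by positivity)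
        _ = _ := mul_one _
    calc ε1 = 2 * (Bt.card * (x : ℝ) ^ A / D) ^ 2 := hε1
      _ ≤ 2 * (2 * z * (x : ℝ) ^ (A + B)) ^ 2 := by linarith
      _ = z * (8 * (z * ((x : ℝ) ^ (A + B)) ^ 2)) := by ring
      _ ≤ z * (8 * y ^ (G0 B E + 3)) := by gcongr
  have hBtz : (Bt.card : ℝ) / d = z := by rw [hBtc]
  -- `Hyp`
  have hyp : Hyp G d g e Q U c n u (er B E y u) ((1 - u) * y ^ (B + E + 3))
      (y ^ K1 / 8 / 256 * (d * min (1 - u) (y ^ K1 / 8))) ((1 - u) * (2 * (x : ℝ) ^ m *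
        (x : ℝ) ^ (A + (B + 1) + (C + 2) + K2 + 5))) D Bt
      (Pv G U (D * x ^ A) ((x ^ A) ^ 2)) γ η ε ε1
      ((x : ℝ) ^ (A + (B + 1) + (C + 2) + K2 + 5)) a A' O := by
    refine ⟨hSt', hBch, ?_, hdpos, hdeg', fun j b => hS.sum j b, ?_, hu1, ?_, her0, ?_, ?_,
      hη0, hγ0, hγ1, ?_, hε0, hε10, ?_, ?_, ?_⟩
    · intro b
      rw [hBtc, hBt, mem_filter]
      simp only [mem_univ, true_and]
    · intro j
      have h1 := hS.e0 j
      by_contra h2
      have := div_neg_of_neg_of_pos (not_le.1 h2) hd0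
      linarith
    · rw [hBtz]
      linarith
    · linarith
    · linarith
    · rw [hγ, div_le_iff₀ (by positivity)]
      have h1 := hpow (A + B) (by omega)
      have h2 : y ^ B * d ≤ u * d := by gcongr
      have h3 : 1 ≤ y ^ A * (y ^ B * d) := by
        rw [← mul_assoc, ← pow_add, hyX, one_div, inv_mul_eq_div, one_le_div (by positivity)]
        exact h1
      have h4 : y ^ A * (y ^ B * d) ≤ y ^ A * (u * d) := by gcongr
      nlinarith
    · linarith
    · intro v _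
      exact (prob_bd hPNB x A D _ hxpos hxAD (hDle v) (by have := hD4 v; omega)).1
    · intro v _
      exact (prob_bd hPNB x A D _ hxpos hxAD (hDle v) (by have := hD4 v; omega)).2
  have hI := hSTPI G d g e Q U c n u _ _ _ _ D Bt _ γ η ε ε1 _ a A' O hyp
  have hO := hSTPO G d g e Q U c n u _ _ _ _ D Bt _ γ η ε ε1 _ a A' O hyp
    ((1 - (u - z)) * y ^ (B + E + 3)) (by
      rw [hBtz]
      have := rr_sum (B := B) (E := E) (u := u) hy0 hy1 hz0 huB (η := η) (γ := γ) (ε := ε)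
        (ε1 := ε1) le_rfl rfl hεb hε1b
      linarith)
  have herr : er B E y u * (1 + 9 * (Bt.card / d) / u) + 4 * (Bt.card / d) * (η + γ) + ε + ε1 ≤
      er B E y (u - z) := by
    rw [hBtz]
    have h1 := er_step (B := B) (E := E) (u := u) hy0 hz0 hu1 (by linarith : 0 < u - z)
    have h2 := small_sum (B := B) (E := E) hy0 hy1 hz0 (η := η) (γ := γ) (ε := ε) (ε1 := ε1)
      le_rfl rfl hεb hε1b
    linarith
  have hM0 : (0 : ℝ) ≤ (x : ℝ) ^ (A + (B + 1) + (C + 2) + K2 + 5) := by positivity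
  have hν : (1 - u) * (2 * (x : ℝ) ^ m * (x : ℝ) ^ (A + (B + 1) + (C + 2) + K2 + 5)) +
      (x : ℝ) ^ (A + (B + 1) + (C + 2) + K2 + 5) ≤
      (1 - (u - z)) * (2 * (x : ℝ) ^ m * (x : ℝ) ^ (A + (B + 1) + (C + 2) + K2 + 5)) := by
    have h1 : 1 ≤ 2 * z * (x : ℝ) ^ m := by
      have h2 : y ^ m * (x : ℝ) ^ m = 1 := by
        rw [← mul_pow, hy, one_div, inv_mul_cancel₀ hX0.ne', one_pow]
      calc (1 : ℝ) = y ^ m * (x : ℝ) ^ m := h2.symm
        _ ≤ 2 * z * (x : ℝ) ^ m := by gcongr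
    have h2 := mul_le_mul_of_nonneg_right h1 hM0
    linarith
  have hrr : (1 - u) * y ^ (B + E + 3) + 2 * ε1 ≤ (1 - (u - z)) * y ^ (B + E + 3) := by
    have h1 := rr_sum (B := B) (E := E) (u := u) hy0 hy1 hz0 huB (η := η) (γ := γ) (ε := ε)
        (ε1 := ε1) le_rfl rfl hεb hε1b
    have h2 : 0 ≤ z * (14 * er B E y u / u + 6 * η + 6 * γ) := by positivity
    linarith
  -- saved colours
  have hgn : ∃ gn', (gn' = (y ^ K1 / 8 / 256 * (d * min (1 - u) (y ^ K1 / 8))) ∨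
      (∀ v, a * (D : ℝ) ^ 2 ≤ ((mis G (nb G v ∩ U)).card : ℝ)) ∧
      gn' = (y ^ K1 / 8 / 256 * (d * min (1 - u) (y ^ K1 / 8))) + a / 256 * Bt.card) ∧
      y ^ K1 / 8 / 256 * (d * min (1 - (u - z)) (y ^ K1 / 8)) ≤ gn' := by
    by_cases hc : 1 - u ≤ y ^ K1 / 8
    · refine ⟨_, Or.inr ⟨?_, rfl⟩, ?_⟩
      · intro v
        have h1 := hmis v
        have h2 := mis_sub G (nb G v) U
        have h3 : ((nb G v \ U).card : ℝ) ≤ 0.126 * (y ^ K1 * d) := by
          have h4 : ((nb G v \ U).card : ℝ) + (nb G v ∩ U).card = (nb G v).card := by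
            exact_mod_cast card_sdiff_add_card_inter (nb G v) U
          have h5 := deg_bd hdpos hSt' hdeg' hu0.le v
          have h6 := (abs_le.1 h5).1
          have h7 := (abs_le.1 (hdeg' v)).2
          have h8 : 2 * er B E y u + u * η + η ≤ 1 / 1000 * y ^ K1 := by
            have h9 : er B E y u ≤ y ^ (2 * B + E + 4) := er_le hy0 huB
            have h10 : y ^ (2 * B + E + 4) ≤ y ^ (K1 + 2) :=
              pow_le_pow_of_le_one hy0.le hyle1 (by omega)
            have h11 : η ≤ y ^ (K1 + 2) :=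
              pow_le_pow_of_le_one hy0.le hyle1 (by unfold G0; omega)
            have h12 : y ^ (K1 + 2) = y ^ K1 * y ^ 2 := pow_add _ _ _
            have h13 : y ^ 2 ≤ 1 / 1000 * (1 / 1000) := by nlinarith
            have h14 : 0 < y ^ K1 := by positivity
            have h15 : u * η ≤ η := by nlinarith
            nlinarith
          have h9 : (2 * er B E y u + u * η + η) * d ≤ 1 / 1000 * y ^ K1 * d := by gcongr
          have h10 : (1 - u) * d ≤ y ^ K1 / 8 * d := by gcongr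
          linarith
        have h4 : ((nb G v).card : ℝ) ≤ 1.001 * d := by
          have h7 := (abs_le.1 (hdeg' v)).2
          nlinarith
        have h5 : ((nb G v \ U).card : ℝ) * (nb G v).card ≤
            0.126 * (y ^ K1 * d) * (1.001 * d) :=
          mul_le_mul h3 h4 (Nat.cast_nonneg _) (by positivity)
        have h6 : (d : ℝ) ^ 2 / (x : ℝ) ^ K1 = y ^ K1 * d ^ 2 := by
          rw [hyX]
          ring
        have h7 : (D : ℝ) ^ 2 ≤ (1.005 * d) ^ 2 := by
          apply pow_le_pow_left₀ (Nat.cast_nonneg _)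
          linarith
        rw [h6] at h1
        have h8 : 0 ≤ y ^ K1 * (d : ℝ) ^ 2 := by positivity
        calc a * (D : ℝ) ^ 2 ≤ a * (1.005 * d) ^ 2 := by gcongr
          _ = 1.005 ^ 2 / 8 * (y ^ K1 * (d : ℝ) ^ 2) := by rw [ha]; ring
          _ ≤ _ := by nlinarith
      · have h1 : min (1 - (u - z)) (y ^ K1 / 8) ≤ min (1 - u) (y ^ K1 / 8) + z := by
          rw [min_eq_left hc]
          refine (min_le_left _ _).trans (by linarith)
        have h2 : y ^ K1 / 8 / 256 * (d * min (1 - (u - z)) (y ^ K1 / 8)) ≤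
            y ^ K1 / 8 / 256 * (d * (min (1 - u) (y ^ K1 / 8) + z)) := by gcongr
        refine h2.trans (le_of_eq ?_)
        rw [hBtc, ← hzβ, ha]
        ring
    · refine ⟨_, Or.inl rfl, ?_⟩
      rw [not_le] at hc
      rw [min_eq_right (by linarith), min_eq_right (by linarith)]
  obtain ⟨gn', hgn1, hgn2⟩ := hgn
  obtain ⟨c1, c2, c3, c4⟩ := hSTPC G d g e Q U c n u _ _ _ _ D Bt _ γ η ε ε1 _ a A' O hyp gn' hgn1
  refine ⟨nU Bt A' U, ncol Bt A' c, ?_⟩
  rw [hBtc] at c1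
  rw [hBtc, ← hz] at hI
  simp only [hBtc] at hO
  rw [← hz] at hO
  exact
    { low := c1
      prp := c2
      inv := fun τ => (hI τ).trans (by rw [hBtz] at herr; exact herr)
      o1 := hO.1
      o2 := hO.2
      upp := fun q => (c3 q).trans hν
      cnt := fun v => by
        have h1 := c4 v
        have h2 := mul_le_mul_of_nonneg_right hrr hd0.le
        linarith }

end Pool.Agent.Work.MP_db9399_ow.helper6
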